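import Pool.Agent.P8H59.GI.Univ

/-!
# The isomorphism game algebra of two graphs, solution groups of binary linear systems
-/

set_option autoImplicit false

noncomputable section

namespace Pool.Agent.P8H59.GI

section graphs

variable {V W : Type} [Fintype V] [Fintype W] (G : SimpleGraph V) (H : SimpleGraph W)

/-- The vertices `g`, `g'` of `G` and the vertices `h`, `h'` of `H` stand in the same relation
(equal, adjacent, or distinct and not adjacent). -/
def SameRel (g g' : V) (h h' : W) : Prop :=
  (g = g' ↔ h = h') ∧ (G.Adj g g' ↔ H.Adj h h')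

/-- The relations of the isomorphism game of `G` and `H`: `(p g h)` is a quantum permutation matrix and
`p g h * p g' h' = 0` whenever the relation of `g, g'` differs from the relation of `h, h'`. -/
structure IsoRel {B : Type} [CStarAlgebra B] (p : V → W → B) : Prop where
  star_eq : ∀ g h, star (p g h) = p g h
  idem : ∀ g h, p g h * p g h = p g h
  row : ∀ g, ∑ h, p g h = 1
  col : ∀ h, ∑ g, p g h = 1
  orth : ∀ g g' h h', ¬ SameRel G H g g' h h' → p g h * p g' h' = 0

/-- `A` with the family `p` is the isomorphism game algebra `𝒜(G, H)`: the universal unital C*-algebra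
generated by a family with the relations `IsoRel`. -/
structure IsGameAlgebra (A : Type) [CStarAlgebra A] (p : V → W → A) : Prop where
  rel : IsoRel G H p
  gen : Dense (Algebra.adjoin ℂ (Set.range fun x : V × W => p x.1 x.2) : Set A)
  univ : ∀ (B : Type) [CStarAlgebra B] (q : V → W → B), IsoRel G H q →
    ∃ φ : A →⋆ₐ[ℂ] B, ∀ g h, φ (p g h) = q g h

end graphs

/-- the generator `J` -/
def genJ (n : ℕ) : FreeGroup (Option (Fin n)) := FreeGroup.of none

/-- the generator `g_i` -/
def gen {n : ℕ} (i : Fin n) : FreeGroup (Option (Fin n)) := FreeGroup.of (some i)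

/-- The relators of the solution group of `M x = b`: `J ^ 2`, `g_i ^ 2`, the commutators `[J, g_i]`, the
commutators `[g_i, g_j]` if some row `k` of `M` has `M_ki = M_kj = 1`, and `∏_i g_i ^ M_ki * (J ^ b_k)⁻¹`
for all rows `k` (product in increasing order of `i`). -/
inductive IsRelator {m n : ℕ} (M : Matrix (Fin m) (Fin n) (ZMod 2)) (b : Fin m → ZMod 2) :
    FreeGroup (Option (Fin n)) → Prop
  | J_sq : IsRelator M b (genJ n ^ 2)
  | g_sq (i : Fin n) : IsRelator M b (gen i ^ 2)
  | J_comm (i : Fin n) : IsRelator M b (genJ n * gen i * (genJ n)⁻¹ * (gen i)⁻¹)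
  | g_comm (k : Fin m) (i j : Fin n) (hi : M k i = 1) (hj : M k j = 1) :
      IsRelator M b (gen i * gen j * (gen i)⁻¹ * (gen j)⁻¹)
  | row (k : Fin m) : IsRelator M b
      (((List.finRange n).map fun i => gen i ^ (M k i).val).prod * (genJ n ^ (b k).val)⁻¹)

/-- The solution group `Γ(M, b)` of the binary linear system `M x = b`. -/
abbrev SolutionGroup {m n : ℕ} (M : Matrix (Fin m) (Fin n) (ZMod 2)) (b : Fin m → ZMod 2) : Type :=
  PresentedGroup {r | IsRelator M b r}

/-- `C`, with the unitary representation `u` of the group `Γ`, is the full group C*-algebra `C*(Γ)`: the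
linear span of `u(Γ)` is dense, and every unitary representation of `Γ` in a unital C*-algebra extends
to `C`. -/
structure IsGroupCStar (Γ : Type) [Group Γ] (C : Type) [CStarAlgebra C] (u : Γ →* unitary C) : Prop where
  dense : Dense (Submodule.span ℂ (Set.range fun g : Γ => (u g : C)) : Set C)
  univ : ∀ (B : Type) [CStarAlgebra B] (v : Γ →* unitary B),
    ∃ φ : C →⋆ₐ[ℂ] B, ∀ g : Γ, φ (u g) = v g

end Pool.Agent.P8H59.GI
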