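import Pool.Agent.P8H59.GI.Defs
import Pool.Agent.Y512.FGC.Exist

/-!
# Existence of the game algebra and of full group C*-algebras
-/

set_option autoImplicit false

noncomputable section

namespace Pool.Agent.P8H59.GI

open scoped ENNReal

variable {V W : Type} [Fintype V] [Fintype W] (G : SimpleGraph V) (H : SimpleGraph W)

lemma proj_norm_le {B : Type} [CStarAlgebra B] (p : B) (h1 : star p = p) (h2 : p * p = p) : ‖p‖ ≤ 1 := by
  have h : ‖star p * p‖ = ‖p‖ * ‖p‖ := CStarRing.norm_star_mul_self
  rw [h1, h2] at h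
  by_contra hc
  push Not at hc
  nlinarith

lemma isoRel_of_injective {A B : Type} [CStarAlgebra A] [CStarAlgebra B] (φ : A →⋆ₐ[ℂ] B)
    (q : V → W → A) (hφ : Function.Injective φ) (h : IsoRel G H (fun v w => φ (q v w))) : IsoRel G H q where
  star_eq g h' := hφ (by rw [map_star]; exact h.star_eq g h')
  idem g h' := hφ (by rw [map_mul]; exact h.idem g h')
  row g := hφ (by rw [map_sum, map_one]; exact h.row g)
  col h' := hφ (by rw [map_sum, map_one]; exact h.col h')
  orth g g' w w' hs := hφ (by rw [map_mul, map_zero]; exact h.orth g g' w w' hs)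

lemma isoRel_map {A B : Type} [CStarAlgebra A] [CStarAlgebra B] (φ : A →⋆ₐ[ℂ] B)
    (q : V → W → A) (h : IsoRel G H q) : IsoRel G H (fun v w => φ (q v w)) where
  star_eq g h' := by rw [← map_star, h.star_eq]
  idem g h' := by rw [← map_mul, h.idem]
  row g := by rw [← map_sum, h.row, map_one]
  col h' := by rw [← map_sum, h.col, map_one]
  orth g g' w w' hs := by rw [← map_mul, h.orth g g' w w' hs, map_zero]

/-- the class of the families with the relations of the isomorphism game -/
def isoCls : Cls (V × W) where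
  R B _ q := IsoRel G H (fun g h => q (g, h))
  sa B _ q hq x := hq.star_eq x.1 x.2
  bd B _ q hq x := proj_norm_le _ (hq.star_eq x.1 x.2) (hq.idem x.1 x.2)
  prod I B _ _ q hq Q hQ := by
    letI : CStarAlgebra (lp B ∞) := lpC B
    refine @IsoRel.mk V W _ _ G H (lp B ∞) (lpC B) _ ?_ ?_ ?_ ?_ ?_
    · intro g h
      apply lp.ext
      funext i
      change star (Q (g, h) i) = Q (g, h) i
      rw [hQ]
      exact (hq i).star_eq g h
    · intro g h
      apply lp.ext
      funext i
      change Q (g, h) i * Q (g, h) i = Q (g, h) i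
      rw [hQ]
      exact (hq i).idem g h
    · intro g
      apply lp.ext
      funext i
      have : (∑ h, Q (g, h) : lp B ∞) i = ∑ h, Q (g, h) i := by
        rw [lp.coeFn_sum, Finset.sum_apply]
      change (∑ h, Q (g, h) : lp B ∞) i = 1
      rw [this]
      simp only [hQ]
      exact (hq i).row g
    · intro h
      apply lp.ext
      funext i
      have : (∑ g, Q (g, h) : lp B ∞) i = ∑ g, Q (g, h) i := by
        rw [lp.coeFn_sum, Finset.sum_apply]
      change (∑ g, Q (g, h) : lp B ∞) i = 1
      rw [this]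
      simp only [hQ]
      exact (hq i).col h
    · intro g g' h h' hs
      apply lp.ext
      funext i
      change Q (g, h) i * Q (g', h') i = 0
      rw [hQ, hQ]
      exact (hq i).orth g g' h h' hs
  sub A B _ _ φ q hφ h := isoRel_of_injective G H φ (fun g h => q (g, h)) hφ h

lemma gen_iff {X A : Type} [CStarAlgebra A] (p : X → A) :
    Dense (Algebra.adjoin ℂ (Set.range p) : Set A) ↔ Dense (Set.range (ev p)) := by
  have : (Algebra.adjoin ℂ (Set.range p) : Set A) = Set.range (ev p) := by
    have h := Algebra.adjoin_range_eq_range_freeAlgebra_lift (R := ℂ) (f := p)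
    rw [h]
    rfl
  rw [this]

/-- if the relations have a representation in a nonzero C*-algebra, the game algebra exists, and it is
nonzero -/
theorem exists_gameAlgebra {B : Type} [CStarAlgebra B] [Nontrivial B] (q : V → W → B)
    (hq : IsoRel G H q) :
    ∃ (A : Type) (_ : CStarAlgebra A) (p : V → W → A), IsGameAlgebra G H A p := by
  haveI : Nonempty (RepK (isoCls G H)) := ⟨⟨B, inferInstance, inferInstance, fun x => q x.1 x.2, hq⟩⟩
  obtain ⟨A, hA, p, hp⟩ := exists_univ (isoCls G H)
  refine ⟨A, hA, fun g h => p (g, h), hp.rel, ?_, ?_⟩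
  · exact (gen_iff p).2 hp.gen
  · intro B _ q hq
    obtain ⟨φ, hφ⟩ := hp.univ B (fun x => q x.1 x.2) hq
    exact ⟨φ, fun g h => hφ (g, h)⟩

theorem nontrivial_of_rep {A : Type} [CStarAlgebra A] (p : V → W → A) (hp : IsGameAlgebra G H A p)
    {B : Type} [CStarAlgebra B] [Nontrivial B] (q : V → W → B) (hq : IsoRel G H q) : Nontrivial A := by
  obtain ⟨φ, -⟩ := hp.univ B q hq
  refine ⟨0, 1, fun h => ?_⟩
  have := congrArg φ h
  rw [map_zero, map_one] at this
  exact zero_ne_one this

theorem exists_groupCStar (Γ : Type) [Group Γ] :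
    ∃ (C : Type) (_ : CStarAlgebra C) (u : Γ →* unitary C), IsGroupCStar Γ C u := by
  obtain ⟨C, hC, u, hu⟩ := Pool.Agent.Y512.FGC.exists_fullGroup Γ
  exact ⟨C, hC, u, dense_iff_closure_eq.2 hu.dense, hu.univ⟩

/-- a full group C*-algebra has a character -/
theorem groupCStar_char (Γ : Type) [Group Γ] (C : Type) [CStarAlgebra C] (u : Γ →* unitary C)
    (hu : IsGroupCStar Γ C u) : Nonempty (C →⋆ₐ[ℂ] ℂ) := by
  obtain ⟨φ, -⟩ := hu.univ ℂ 1
  exact ⟨φ⟩

/-- a character of the game algebra gives an isomorphism of the graphs -/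
theorem iso_of_char {q : V → W → ℂ} (hq : IsoRel G H q) : Nonempty (G ≃g H) := by
  classical
  have h01 : ∀ g h, q g h = 0 ∨ q g h = 1 := by
    intro g h
    have := hq.idem g h
    have h2 : q g h * (q g h - 1) = 0 := by linear_combination this
    rcases mul_eq_zero.1 h2 with h3 | h3
    · exact Or.inl h3
    · exact Or.inr (by linear_combination h3)
  have hrow : ∀ g, ∃ h, q g h = 1 := by
    intro g
    by_contra hc
    push Not at hc
    have : ∀ h, q g h = 0 := fun h => (h01 g h).resolve_right (hc h)
    have h1 := hq.row g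
    simp [this] at h1
  have hcol : ∀ h, ∃ g, q g h = 1 := by
    intro h
    by_contra hc
    push Not at hc
    have : ∀ g, q g h = 0 := fun g => (h01 g h).resolve_right (hc g)
    have h1 := hq.col h
    simp [this] at h1
  choose f hf using hrow
  choose e he using hcol
  have key : ∀ g g' h h', q g h = 1 → q g' h' = 1 → SameRel G H g g' h h' := by
    intro g g' h h' h1 h2
    by_contra hc
    have := hq.orth g g' h h' hc
    rw [h1, h2] at this
    norm_num at this
  refine ⟨⟨⟨f, e, ?_, ?_⟩, ?_⟩⟩
  · intro g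
    exact ((key (e (f g)) g (f g) (f g) (he _) (hf g)).1).2 rfl
  · intro h
    exact ((key (e h) (e h) (f (e h)) h (hf _) (he h)).1).1 rfl
  · intro a b
    exact ((key a b (f a) (f b) (hf a) (hf b)).2).symm

end Pool.Agent.P8H59.GI
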