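import Pool.Agent.P8H59.GI.Exist

/-!
# The graphs of the magic square
-/

set_option autoImplicit false

namespace Pool.Agent.P8H59.GI

/-- the rows and columns of the `3 × 3` square -/
def line : Fin 6 → Fin 3 → Fin 9 :=
  ![![0, 1, 2], ![3, 4, 5], ![6, 7, 8], ![0, 3, 6], ![1, 4, 7], ![2, 5, 8]]

/-- the right-hand sides of the magic square -/
def par : Fin 6 → Bool := ![false, false, false, false, false, true]

/-- the values of the local solution with first values `a`, `b` and parity `β` -/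
def val (β a b : Bool) : Fin 3 → Bool := ![a, b, (a ^^ b) ^^ β]

/-- two local solutions contradict each other -/
def Inc (β : Fin 6 → Bool) (v w : Fin 6 × Bool × Bool) : Prop :=
  ∃ s t, line v.1 s = line w.1 t ∧ val (β v.1) v.2.1 v.2.2 s ≠ val (β w.1) w.2.1 w.2.2 t

instance (β : Fin 6 → Bool) (v w : Fin 6 × Bool × Bool) : Decidable (Inc β v w) := by
  unfold Inc; infer_instance

lemma line_inj (k : Fin 6) (s t : Fin 3) (h : line k s = line k t) : s = t := by
  revert k s t; decide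

/-- The graph of the local solutions of the `6` equations with right-hand sides `β`; two local
solutions are adjacent if they contradict each other. -/
def LG (β : Fin 6 → Bool) : SimpleGraph (Fin 6 × Bool × Bool) where
  Adj := Inc β
  symm := ⟨by
    rintro v w ⟨s, t, h1, h2⟩
    exact ⟨t, s, h1.symm, fun h => h2 h.symm⟩⟩
  loopless := ⟨by
    rintro v ⟨s, t, h1, h2⟩
    have := line_inj _ _ _ h1
    subst this
    exact h2 rfl⟩

lemma val_xor (β a b a' b' : Bool) (s : Fin 3) :
    val β (a ^^ a') (b ^^ b') s = (val β a b s ^^ val false a' b' s) := by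
  revert β a b a' b' s; decide

lemma xor_ne_iff {x y x' y' : Bool} (h : (x ^^ x') = (y ^^ y')) : x ≠ y ↔ x' ≠ y' := by
  revert x y x' y'; decide

lemma same_of_not_inc (β : Fin 6 → Bool) (k : Fin 6) (a b : Bool) (a' b' : Bool) (l : Fin 6)
    (c d c' d' : Bool) (h : ¬ Inc β (k, (a ^^ a'), (b ^^ b')) (l, (c ^^ c'), (d ^^ d'))) :
    SameRel (LG β) (LG fun _ => false) (k, a, b) (l, c, d) (k, a', b') (l, c', d') := by
  have h' : ∀ s t, line k s = line l t →
      (val (β k) a b s ≠ val (β l) c d t ↔ val false a' b' s ≠ val false c' d' t) := by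
    intro s t hst
    have h1 : val (β k) (a ^^ a') (b ^^ b') s = val (β l) (c ^^ c') (d ^^ d') t := by
      by_contra hc
      exact h ⟨s, t, hst, hc⟩
    rw [val_xor, val_xor] at h1
    exact xor_ne_iff h1
  constructor
  · constructor
    · intro he
      simp only [Prod.mk.injEq] at he
      obtain ⟨rfl, rfl, rfl⟩ := he
      have h0 := (h' 0 0 rfl).not
      have h1 := (h' 1 1 rfl).not
      simp only [val, ne_eq, Matrix.cons_val_zero, Matrix.cons_val_one, not_not,
        true_iff] at h0 h1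
      simp only [Prod.mk.injEq, true_and]
      exact ⟨h0, h1⟩
    · intro he
      simp only [Prod.mk.injEq] at he
      obtain ⟨rfl, rfl, rfl⟩ := he
      have h0 := (h' 0 0 rfl).not
      have h1 := (h' 1 1 rfl).not
      simp only [val, ne_eq, Matrix.cons_val_zero, Matrix.cons_val_one, not_not,
        iff_true] at h0 h1
      simp only [Prod.mk.injEq, true_and]
      exact ⟨h0, h1⟩
  · constructor
    · rintro ⟨s, t, hst, hv⟩
      exact ⟨s, t, hst, (h' s t hst).1 hv⟩
    · rintro ⟨s, t, hst, hv⟩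
      exact ⟨s, t, hst, (h' s t hst).2 hv⟩

/-- the nine observables of the Mermin-Peres square -/
def S : Fin 9 → Matrix (Fin 4) (Fin 4) ℤ :=
  ![!![0,0,1,0; 0,0,0,1; 1,0,0,0; 0,1,0,0],
    !![0,1,0,0; 1,0,0,0; 0,0,0,1; 0,0,1,0],
    !![0,0,0,1; 0,0,1,0; 0,1,0,0; 1,0,0,0],
    !![1,0,0,0; 0,-1,0,0; 0,0,1,0; 0,0,0,-1],
    !![1,0,0,0; 0,1,0,0; 0,0,-1,0; 0,0,0,-1],
    !![1,0,0,0; 0,-1,0,0; 0,0,-1,0; 0,0,0,1],
    !![0,0,1,0; 0,0,0,-1; 1,0,0,0; 0,-1,0,0],
    !![0,1,0,0; 1,0,0,0; 0,0,0,-1; 0,0,-1,0],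
    !![0,0,0,-1; 0,0,1,0; 0,1,0,0; -1,0,0,0]]

/-- twice the spectral projections -/
def P2 (i : Fin 9) (c : Bool) : Matrix (Fin 4) (Fin 4) ℤ := if c then 1 - S i else 1 + S i

/-- four times the joint spectral projections of the lines -/
def E4 (k : Fin 6) (c d : Bool) : Matrix (Fin 4) (Fin 4) ℤ := P2 (line k 0) c * P2 (line k 1) d

lemma E4_symm (k : Fin 6) (c d : Bool) : (E4 k c d).transpose = E4 k c d := by
  revert k c d; decide +kernel

lemma E4_sq (k : Fin 6) (c d : Bool) : E4 k c d * E4 k c d = 4 • E4 k c d := by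
  revert k c d; decide +kernel

lemma E4_sum (k : Fin 6) (a b : Bool) :
    ∑ x : Bool × Bool, E4 k (a ^^ x.1) (b ^^ x.2) = 4 • (1 : Matrix (Fin 4) (Fin 4) ℤ) := by
  revert k a b; decide +kernel

lemma E4_sum' (k : Fin 6) (a b : Bool) :
    ∑ x : Bool × Bool, E4 k (x.1 ^^ a) (x.2 ^^ b) = 4 • (1 : Matrix (Fin 4) (Fin 4) ℤ) := by
  revert k a b; decide +kernel

lemma E4_orth (k : Fin 6) (c d : Bool) (l : Fin 6) (c' d' : Bool) (h : Inc par (k, c, d) (l, c', d')) :
    E4 k c d * E4 l c' d' = 0 := by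
  revert k c d l c' d'; decide +kernel

end Pool.Agent.P8H59.GI
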