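import Pool.Agent.P8H59.GI.Magic

/-!
# The game algebra of the magic square graphs has no characters
-/

set_option autoImplicit false

noncomputable section

namespace Pool.Agent.P8H59.GI

open scoped ComplexOrder

/-- `4 × 4` matrices as a C*-algebra -/
abbrev M4 : Type := CStarMatrix (Fin 4) (Fin 4) ℂ

/-- integral matrices as elements of `M4` -/
def toM4 : Matrix (Fin 4) (Fin 4) ℤ →+* M4 :=
  (CStarMatrix.ofMatrixRingEquiv (A := ℂ) (n := Fin 4) : Matrix (Fin 4) (Fin 4) ℂ →+* M4).comp
    (Int.castRingHom ℂ).mapMatrix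

lemma toM4_apply (M : Matrix (Fin 4) (Fin 4) ℤ) (i j : Fin 4) : toM4 M i j = (M i j : ℂ) := rfl

lemma toM4_star (M : Matrix (Fin 4) (Fin 4) ℤ) : star (toM4 M) = toM4 M.transpose := by
  ext i j
  rw [CStarMatrix.star_apply, toM4_apply, toM4_apply, Matrix.transpose_apply]
  simp

/-- the quantum isomorphism -/
def pM (v w : Fin 6 × Bool × Bool) : M4 :=
  if v.1 = w.1 then (4 : ℂ)⁻¹ • toM4 (E4 v.1 (v.2.1 ^^ w.2.1) (v.2.2 ^^ w.2.2)) else 0

lemma toM4_four : toM4 (4 • (1 : Matrix (Fin 4) (Fin 4) ℤ)) = (4 : ℂ) • (1 : M4) := by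
  rw [map_nsmul, map_one, ← Nat.cast_smul_eq_nsmul ℂ]
  norm_num

theorem pM_rel : IsoRel (LG par) (LG fun _ => false) pM where
  star_eq v w := by
    unfold pM
    split_ifs
    · rw [star_smul, toM4_star, E4_symm]
      congr 1
      simp
    · exact star_zero _
  idem v w := by
    unfold pM
    split_ifs
    · rw [smul_mul_smul_comm, ← map_mul, E4_sq, map_nsmul, ← Nat.cast_smul_eq_nsmul ℂ, smul_smul]
      congr 1
      norm_num
    · exact mul_zero _
  row v := by
    obtain ⟨k, a, b⟩ := v
    rw [Fintype.sum_prod_type, Finset.sum_eq_single k]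
    · unfold pM
      simp only [if_true]
      rw [← Finset.smul_sum, ← map_sum, E4_sum, toM4_four, smul_smul]
      norm_num
    · intro l _ hl
      unfold pM
      refine Finset.sum_eq_zero fun x _ => ?_
      rw [if_neg]
      exact fun h => hl h.symm
    · intro h
      exact absurd (Finset.mem_univ _) h
  col w := by
    obtain ⟨k, a, b⟩ := w
    rw [Fintype.sum_prod_type, Finset.sum_eq_single k]
    · unfold pM
      simp only [if_true]
      rw [← Finset.smul_sum, ← map_sum, E4_sum', toM4_four, smul_smul]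
      norm_num
    · intro l _ hl
      unfold pM
      refine Finset.sum_eq_zero fun x _ => ?_
      rw [if_neg]
      exact fun h => hl h
    · intro h
      exact absurd (Finset.mem_univ _) h
  orth v v' w w' hs := by
    obtain ⟨k, a, b⟩ := v
    obtain ⟨l, c, d⟩ := v'
    obtain ⟨k', a', b'⟩ := w
    obtain ⟨l', c', d'⟩ := w'
    unfold pM
    simp only
    split_ifs with h1 h2 h2
    · subst h1
      subst h2
      by_cases hi : Inc par (k, (a ^^ a'), (b ^^ b')) (l, (c ^^ c'), (d ^^ d'))
      · rw [smul_mul_smul_comm, ← map_mul, E4_orth _ _ _ _ _ _ hi, map_zero, smul_zero]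
      · exact absurd (same_of_not_inc par k a b a' b' l c d c' d' hi) hs
    · exact mul_zero _
    · exact zero_mul _
    · exact zero_mul _

theorem magic_exists : ∃ (A : Type) (_ : CStarAlgebra A)
    (p : Fin 6 × Bool × Bool → Fin 6 × Bool × Bool → A), IsGameAlgebra (LG par) (LG fun _ => false) A p :=
  exists_gameAlgebra _ _ pM pM_rel

theorem magic_nontrivial {A : Type} [CStarAlgebra A]
    (p : Fin 6 × Bool × Bool → Fin 6 × Bool × Bool → A)
    (hp : IsGameAlgebra (LG par) (LG fun _ => false) A p) : Nontrivial A :=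
  nontrivial_of_rep _ _ p hp pM pM_rel

lemma eq_of_not_inc (β : Fin 6 → Bool) (p q : Fin 6 × Bool × Bool) (h : p.1 = q.1) (h1 : ¬ Inc β p q) :
    p = q := by
  obtain ⟨x, a, b⟩ := p
  obtain ⟨y, c, d⟩ := q
  simp only at h
  subst h
  unfold Inc at h1
  push Not at h1
  have h0 := h1 0 0 rfl
  have h2 := h1 1 1 rfl
  simp only [val, Matrix.cons_val_zero, Matrix.cons_val_one] at h0 h2
  rw [h0, h2]

/-- the linear system of the magic square has no solution -/
lemma no_solution (u : Fin 6 → Bool × Bool)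
    (hval : ∀ k l s t, line k s = line l t →
      val (par k) (u k).1 (u k).2 s = val (par l) (u l).1 (u l).2 t) : False := by
  have e1 := hval 0 3 0 0 rfl
  have e2 := hval 0 4 1 0 rfl
  have e3 := hval 0 5 2 0 rfl
  have e4 := hval 1 3 0 1 rfl
  have e5 := hval 1 4 1 1 rfl
  have e6 := hval 1 5 2 1 rfl
  have e7 := hval 2 3 0 2 rfl
  have e8 := hval 2 4 1 2 rfl
  have e9 := hval 2 5 2 2 rfl
  clear hval
  generalize u 0 = u0 at *
  generalize u 1 = u1 at *
  generalize u 2 = u2 at *
  generalize u 3 = u3 at *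
  generalize u 4 = u4 at *
  generalize u 5 = u5 at *
  obtain ⟨a0, b0⟩ := u0
  obtain ⟨a1, b1⟩ := u1
  obtain ⟨a2, b2⟩ := u2
  obtain ⟨a3, b3⟩ := u3
  obtain ⟨a4, b4⟩ := u4
  obtain ⟨a5, b5⟩ := u5
  simp only [val, par, Matrix.cons_val_zero, Matrix.cons_val_one, Matrix.cons_val,
    Bool.xor_false, Bool.xor_true] at e1 e2 e3 e4 e5 e6 e7 e8 e9
  subst e1 e2 e3 e4 e5
  subst e6
  revert e7 e8 e9
  cases a0 <;> cases b0 <;> cases a1 <;> cases b1 <;> cases a2 <;> cases b2 <;> simp

/-- the two graphs are not isomorphic -/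
theorem not_iso : IsEmpty (LG par ≃g LG fun _ => false) := by
  refine ⟨fun e => ?_⟩
  -- the independent set `(k, 0)` of the second graph
  have hw : ∀ k l : Fin 6, ¬ Inc (fun _ => false) (k, false, false) (l, false, false) := by
    decide
  obtain ⟨v, hvdef⟩ : ∃ v : Fin 6 → Fin 6 × Bool × Bool, ∀ k, v k = e.symm (k, false, false) :=
    ⟨_, fun _ => rfl⟩
  have hv : ∀ k l, ¬ Inc par (v k) (v l) := by
    intro k l h
    rw [hvdef, hvdef] at h
    exact hw k l (e.symm.map_adj_iff.1 h)
  have hinj : Function.Injective fun k => (v k).1 := by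
    intro k l h
    have h1 := eq_of_not_inc par _ _ h (hv k l)
    rw [hvdef, hvdef] at h1
    have := e.symm.injective h1
    exact congrArg Prod.fst this
  have hbij : Function.Bijective fun k => (v k).1 := Finite.injective_iff_bijective.1 hinj
  -- reindex
  let σ := Equiv.ofBijective _ hbij
  refine no_solution (fun k => (v (σ.symm k)).2) ?_
  intro k l s t hst
  by_contra hc
  have hk : v (σ.symm k) = (k, (v (σ.symm k)).2) := by
    apply Prod.ext
    · exact σ.apply_symm_apply k
    · rfl
  have hl : v (σ.symm l) = (l, (v (σ.symm l)).2) := by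
    apply Prod.ext
    · exact σ.apply_symm_apply l
    · rfl
  have := hv (σ.symm k) (σ.symm l)
  rw [hk, hl] at this
  exact this ⟨s, t, hst, hc⟩

end Pool.Agent.P8H59.GI
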