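import Mathlib

/-!
# Universal C*-algebras generated by self-adjoint contractions with relations

For a class `R` of families of self-adjoint contractions (indexed by `X`) in unital C*-algebras which is
closed under products and passes to C*-subalgebras, a universal family exists.
-/

set_option autoImplicit false
set_option linter.all false

noncomputable section

namespace Pool.Agent.P8H59.GI

open scoped ENNReal

variable {X : Type}

/-- the evaluation of a noncommutative polynomial -/
def ev {B : Type} [CStarAlgebra B] (q : X → B) : FreeAlgebra ℂ X →ₐ[ℂ] B := FreeAlgebra.lift ℂ q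

lemma ev_ι {B : Type} [CStarAlgebra B] (q : X → B) (x : X) : ev q (FreeAlgebra.ι ℂ x) = q x := by
  unfold ev; simp

lemma exists_adj (x : FreeAlgebra ℂ X) : ∃ y : FreeAlgebra ℂ X, ∀ (B : Type) [CStarAlgebra B]
    (q : X → B), (∀ x, star (q x) = q x) → star (ev q x) = ev q y := by
  induction x using FreeAlgebra.induction with
  | grade0 r =>
    refine ⟨algebraMap ℂ _ (star r), fun B _ q hq => ?_⟩
    rw [AlgHomClass.commutes, AlgHomClass.commutes]
    exact (algebraMap_star_comm r).symm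
  | grade1 x => exact ⟨FreeAlgebra.ι ℂ x, fun B _ q hq => by rw [ev_ι, hq]⟩
  | mul a b ha hb =>
    obtain ⟨c, hc⟩ := ha
    obtain ⟨d, hd⟩ := hb
    exact ⟨d * c, fun B _ q hq => by rw [map_mul, star_mul, map_mul, hc B q hq, hd B q hq]⟩
  | add a b ha hb =>
    obtain ⟨c, hc⟩ := ha
    obtain ⟨d, hd⟩ := hb
    exact ⟨c + d, fun B _ q hq => by rw [map_add, star_add, map_add, hc B q hq, hd B q hq]⟩

/-- the product of C*-algebras is a C*-algebra -/
abbrev lpC {I : Type} (B : I → Type) [∀ i, CStarAlgebra (B i)] [∀ i, Nontrivial (B i)] :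
    CStarAlgebra (lp B ∞) where

/-- A class of families of elements of unital C*-algebras. -/
structure Cls (X : Type) where
  /-- the class -/
  R : ∀ (B : Type) [CStarAlgebra B], (X → B) → Prop
  sa : ∀ (B : Type) [CStarAlgebra B] (q : X → B), R B q → ∀ x, star (q x) = q x
  bd : ∀ (B : Type) [CStarAlgebra B] (q : X → B), R B q → ∀ x, ‖q x‖ ≤ 1
  prod : ∀ (I : Type) (B : I → Type) [∀ i, CStarAlgebra (B i)] [∀ i, Nontrivial (B i)]
    (q : ∀ i, X → B i), (∀ i, R (B i) (q i)) → ∀ (Q : X → lp B ∞), (∀ x i, Q x i = q i x) →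
      @R (lp B ∞) (lpC B) Q
  sub : ∀ (A B : Type) [CStarAlgebra A] [CStarAlgebra B] (φ : A →⋆ₐ[ℂ] B) (q : X → A),
    Function.Injective φ → R B (fun x => φ (q x)) → R A q

/-- `A` with the family `p` is the universal C*-algebra of the class `K`. -/
structure IsUniv (K : Cls X) (A : Type) [CStarAlgebra A] (p : X → A) : Prop where
  rel : K.R A p
  gen : Dense (Set.range (ev p))
  univ : ∀ (B : Type) [CStarAlgebra B] (q : X → B), K.R B q → ∃ φ : A →⋆ₐ[ℂ] B, ∀ x, φ (p x) = q x

variable (K : Cls X)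

/-- a family of the class in a nonzero C*-algebra -/
structure RepK where
  B : Type
  inst : CStarAlgebra B
  nt : Nontrivial B
  q : X → B
  hq : K.R B q

instance (r : RepK K) : CStarAlgebra r.B := r.inst
instance (r : RepK K) : Nontrivial r.B := r.nt

lemma ev_bdd (x : FreeAlgebra ℂ X) : ∃ C : ℝ, ∀ (B : Type) [CStarAlgebra B] (q : X → B),
    K.R B q → ‖ev q x‖ ≤ C := by
  induction x using FreeAlgebra.induction with
  | grade0 r =>
    refine ⟨‖r‖, fun B _ q hq => ?_⟩
    rw [AlgHomClass.commutes, Algebra.algebraMap_eq_smul_one, norm_smul]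
    rcases subsingleton_or_nontrivial B with h | h
    · rw [Subsingleton.elim (1 : B) 0, norm_zero, mul_zero]; positivity
    · rw [CStarRing.norm_one, mul_one]
  | grade1 x => exact ⟨1, fun B _ q hq => by rw [ev_ι]; exact K.bd B q hq x⟩
  | mul a b ha hb =>
    obtain ⟨C, hC⟩ := ha
    obtain ⟨D, hD⟩ := hb
    refine ⟨C * D, fun B _ q hq => ?_⟩
    rw [map_mul]
    exact (norm_mul_le _ _).trans (mul_le_mul (hC B q hq) (hD B q hq) (norm_nonneg _)
      ((norm_nonneg _).trans (hC B q hq)))
  | add a b ha hb =>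
    obtain ⟨C, hC⟩ := ha
    obtain ⟨D, hD⟩ := hb
    refine ⟨C + D, fun B _ q hq => ?_⟩
    rw [map_add]
    exact (norm_add_le _ _).trans (add_le_add (hC B q hq) (hD B q hq))

variable [Nonempty (RepK K)]

lemma exists_near (x : FreeAlgebra ℂ X) (n : ℕ) : ∃ r : RepK K, ∀ (B : Type) [CStarAlgebra B]
    (q : X → B), K.R B q → ‖ev q x‖ ≤ ‖ev r.q x‖ + 1 / (n + 1) := by
  obtain ⟨C, hC⟩ := ev_bdd K x
  have hbdd : BddAbove (Set.range fun r : RepK K => ‖ev r.q x‖) := by
    refine ⟨C, ?_⟩
    rintro _ ⟨r, rfl⟩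
    exact hC r.B r.q r.hq
  have hpos : (0 : ℝ) < 1 / (n + 1) := by positivity
  obtain ⟨r, hr⟩ := exists_lt_of_lt_ciSup (f := fun r : RepK K => ‖ev r.q x‖)
    (show (⨆ r : RepK K, ‖ev r.q x‖) - 1 / (n + 1) < ⨆ r : RepK K, ‖ev r.q x‖ by linarith)
  refine ⟨r, fun B _ q hq => ?_⟩
  rcases subsingleton_or_nontrivial B with h | h
  · rw [Subsingleton.elim (ev q x) 0, norm_zero]
    have := norm_nonneg (ev r.q x)
    linarith
  · have h1 : ‖ev q x‖ ≤ ⨆ r : RepK K, ‖ev r.q x‖ :=
      le_ciSup hbdd (⟨B, inferInstance, h, q, hq⟩ : RepK K)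
    linarith

/-- an almost optimal family -/
def nearR (i : FreeAlgebra ℂ X × ℕ) : RepK K := (exists_near K i.1 i.2).choose

lemma nearR_spec (i : FreeAlgebra ℂ X × ℕ) (B : Type) [CStarAlgebra B] (q : X → B) (hq : K.R B q) :
    ‖ev q i.1‖ ≤ ‖ev (nearR K i).q i.1‖ + 1 / (i.2 + 1) :=
  (exists_near K i.1 i.2).choose_spec B q hq

/-- the product of the C*-algebras -/
abbrev PP : Type := lp (fun i : FreeAlgebra ℂ X × ℕ => (nearR K i).B) ∞

noncomputable instance : CStarAlgebra (PP K) := lpC _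

/-- the product family -/
def QQ (x : X) : PP K := ⟨fun i => (nearR K i).q x, memℓp_infty ⟨1, by
  rintro _ ⟨i, rfl⟩
  exact K.bd _ _ (nearR K i).hq x⟩⟩

lemma R_QQ : K.R (PP K) (QQ K) :=
  K.prod _ (fun i => (nearR K i).B) (fun i => (nearR K i).q) (fun i => (nearR K i).hq) (QQ K)
    (fun x i => rfl)

lemma ev_QQ (x : FreeAlgebra ℂ X) (i : FreeAlgebra ℂ X × ℕ) : (ev (QQ K) x : PP K) i = ev (nearR K i).q x := by
  induction x using FreeAlgebra.induction with
  | grade0 r =>
    rw [AlgHomClass.commutes, AlgHomClass.commutes]; rfl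
  | grade1 x => rw [ev_ι, ev_ι]; rfl
  | mul a b ha hb => rw [map_mul, map_mul, ← ha, ← hb]; rfl
  | add a b ha hb => rw [map_add, map_add, ← ha, ← hb]; rfl

theorem norm_QQ (B : Type) [CStarAlgebra B] (q : X → B) (hq : K.R B q) (x : FreeAlgebra ℂ X) :
    ‖ev q x‖ ≤ ‖(ev (QQ K) x : PP K)‖ := by
  refine le_of_forall_pos_le_add fun ε hε => ?_
  obtain ⟨n, hn⟩ := exists_nat_one_div_lt hε
  have h1 := nearR_spec K (x, n) B q hq
  have h2 : ‖(ev (QQ K) x : PP K) (x, n)‖ ≤ ‖(ev (QQ K) x : PP K)‖ :=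
    lp.norm_apply_le_norm (by simp) _ _
  rw [ev_QQ] at h2
  simp only at h1
  linarith

/-- the algebra generated by the family -/
def galg : StarSubalgebra ℂ (PP K) where
  toSubalgebra := (ev (QQ K)).range
  star_mem' := by
    rintro _ ⟨x, rfl⟩
    obtain ⟨y, hy⟩ := exists_adj x
    exact ⟨y, (hy _ (QQ K) (K.sa _ _ (R_QQ K))).symm⟩

/-- its closure -/
def GS : StarSubalgebra ℂ (PP K) := (galg K).topologicalClosure

instance : IsClosed (GS K : Set (PP K)) := StarSubalgebra.isClosed_topologicalClosure _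

/-- the closure as a type -/
def GT : Type := GS K

instance : CStarAlgebra (GT K) := by
  exact (inferInstance : CStarAlgebra (GS K))

/-- the inclusion -/
def inclG : GT K →⋆ₐ[ℂ] PP K := (GS K).subtype

lemma inclG_inj : Function.Injective (inclG K) := Subtype.val_injective

lemma inclG_norm (x : GT K) : ‖inclG K x‖ = ‖x‖ := rfl

lemma Q_mem (x : X) : QQ K x ∈ GS K := by
  apply StarSubalgebra.le_topologicalClosure
  exact ⟨FreeAlgebra.ι ℂ x, ev_ι _ _⟩

/-- the family in the closure -/
def pG (x : X) : GT K := (⟨QQ K x, Q_mem K x⟩ : GS K)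

lemma incl_pG (x : X) : inclG K (pG K x) = QQ K x := rfl

lemma incl_ev (x : FreeAlgebra ℂ X) : inclG K (ev (pG K) x) = ev (QQ K) x := by
  have : (inclG K : GT K →ₐ[ℂ] PP K).comp (ev (pG K)) = ev (QQ K) := by
    apply FreeAlgebra.hom_ext
    funext x
    simp only [Function.comp_apply, AlgHom.comp_apply, ev_ι]
    rfl
  exact congrArg (fun f : FreeAlgebra ℂ X →ₐ[ℂ] PP K => f x) this

lemma dense_pG : DenseRange (ev (pG K)) := by
  intro a
  rw [Metric.mem_closure_iff]
  intro δ hδ
  have ha : (inclG K a) ∈ closure ((galg K : StarSubalgebra ℂ (PP K)) : Set (PP K)) := by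
    rw [← StarSubalgebra.topologicalClosure_coe]
    exact a.2
  obtain ⟨_, ⟨x, rfl⟩, hx⟩ := Metric.mem_closure_iff.mp ha δ hδ
  refine ⟨_, ⟨x, rfl⟩, ?_⟩
  rw [dist_eq_norm, ← inclG_norm, map_sub, incl_ev, ← dist_eq_norm]
  exact hx

theorem isUniv_GT : IsUniv K (GT K) (pG K) where
  rel := K.sub _ _ (inclG K) _ (inclG_inj K) (R_QQ K)
  gen := dense_pG K
  univ := by
    intro B _ q hq
    have hn : ∀ x : FreeAlgebra ℂ X, ‖(ev q).toLinearMap x‖ ≤
        1 * ‖(ev (pG K)).toLinearMap x‖ := by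
      intro x
      rw [one_mul]
      have := norm_QQ K B q hq x
      rw [← incl_ev K, inclG_norm] at this
      exact this
    let φ : GT K →L[ℂ] B :=
      (ev q).toLinearMap.extendOfNorm (ev (pG K)).toLinearMap
    have hφ : ∀ x, φ (ev (pG K) x) = ev q x := by
      intro x
      exact LinearMap.extendOfNorm_eq (f := (ev q).toLinearMap)
        (e := (ev (pG K)).toLinearMap) (dense_pG K) ⟨1, hn⟩ x
    have hmul : ∀ a b, φ (a * b) = φ a * φ b := by
      intro a b
      refine DenseRange.induction_on₂ (p := fun a b => φ (a * b) = φ a * φ b) (dense_pG K) ?_ ?_ a b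
      · exact isClosed_eq (by fun_prop) (by fun_prop)
      · intro x y
        rw [← map_mul, hφ, hφ, hφ, map_mul]
    have hsaG : ∀ x, star (pG K x) = pG K x :=
      K.sa _ _ (K.sub _ _ (inclG K) _ (inclG_inj K) (R_QQ K))
    have hstar : ∀ a, φ (star a) = star (φ a) := by
      intro a
      refine DenseRange.induction_on (p := fun a => φ (star a) = star (φ a)) (dense_pG K) a ?_ ?_
      · exact isClosed_eq (by fun_prop) (by fun_prop)
      · intro x
        obtain ⟨y, hy⟩ := exists_adj x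
        rw [hy _ _ hsaG, hφ, hφ, hy _ _ (K.sa _ _ hq)]
    have hone : φ 1 = 1 := by
      have h1 := hφ 1
      rw [map_one (ev (pG K)), map_one (ev q)] at h1
      exact h1
    have hcom : ∀ r : ℂ, φ (algebraMap ℂ (GT K) r) = algebraMap ℂ B r := by
      intro r
      rw [Algebra.algebraMap_eq_smul_one, Algebra.algebraMap_eq_smul_one, map_smul, hone]
    refine ⟨{ toFun := φ
              map_one' := hone
              map_mul' := hmul
              map_zero' := map_zero φ
              map_add' := map_add φ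
              commutes' := hcom
              map_star' := hstar }, ?_⟩
    intro x
    have := hφ (FreeAlgebra.ι ℂ x)
    rw [ev_ι, ev_ι] at this
    exact this

theorem exists_univ : ∃ (A : Type) (_ : CStarAlgebra A) (p : X → A), IsUniv K A p :=
  ⟨GT K, inferInstance, pG K, isUniv_GT K⟩

end Pool.Agent.P8H59.GI
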